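import Mathlib
import Pool.Agent.Work.MP_5f857a_co.X.Own

set_option autoImplicit false

namespace Pool.Agent.Results.MP_5f857a_co.CrossPolytopeSubdivision

section

variable {E : Type*} [AddCommGroup E] [Module ℝ E]

/-- the points of `V` on any supporting hyperplane `f x = c` of `conv V` are affinely independent -/
def HasSimplexFaces (V : Finset E) : Prop :=
  ∀ (f : E →ₗ[ℝ] ℝ) (c : ℝ), (∀ x ∈ V, f x ≤ c) → (∃ x ∈ V, f x < c) →
    AffineIndependent ℝ (fun x : {x : E // x ∈ V ∧ f x = c} => (x : E))

/-- `V` is the vertex set of a centrally symmetric simplicial polytope `P = conv V` of full dimension: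
`V = -V`, every point of `V` is a vertex of `P`, `V` spans the whole space affinely, and every proper face
is a simplex. -/
def IsCSSimplicial (V : Finset E) : Prop :=
  (∀ v ∈ V, -v ∈ V) ∧ (∀ v ∈ V, v ∉ convexHull ℝ ((V : Set E) \ {v})) ∧
    affineSpan ℝ (V : Set E) = ⊤ ∧ HasSimplexFaces V

/-- `u` and `v` span an edge (or are a vertex, if `u = v`) of `conv V`: some supporting hyperplane meets `V`
exactly in `u` and `v`. -/
def IsEdge (V : Finset E) (u v : E) : Prop :=
  u ∈ V ∧ v ∈ V ∧ ∃ (f : E →ₗ[ℝ] ℝ) (c : ℝ),
    (∀ x ∈ V, f x ≤ c) ∧ ∀ x ∈ V, (f x = c ↔ (x = u ∨ x = v))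

/-- the graph of the polytope `conv V` -/
def polytopeGraph (V : Finset E) : SimpleGraph E := SimpleGraph.fromRel (fun u v => IsEdge V u v)

end

/-- `G` contains a subdivision of `H` with all its vertices in `V`: different branch vertices `b i` in `V`, for
every edge `ij` of `H` a path of `G` inside `V` from `b i` to `b j` which contains no other branch vertex, and a
common vertex of the paths of two different edges of `H` is a branch vertex (hence a common end of both). -/
def HasSubdivision {α ι : Type*} (G : SimpleGraph α) (V : Set α) (H : SimpleGraph ι) : Prop :=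
  ∃ b : ι → α, Function.Injective b ∧ (∀ i, b i ∈ V) ∧
    ∃ p : (i j : ι) → H.Adj i j → G.Walk (b i) (b j),
      (∀ i j h, (p i j h).IsPath ∧ ∀ x ∈ (p i j h).support, x ∈ V) ∧
      (∀ i j h k, b k ∈ (p i j h).support → k = i ∨ k = j) ∧
      ∀ i j h k l h', s(i, j) ≠ s(k, l) → ∀ x, x ∈ (p i j h).support → x ∈ (p k l h').support →
        ∃ m, x = b m

/-- the graph of the `d`-dimensional cross-polytope: the vertex `e_i` is `(i, true)`, `-e_i` is `(i, false)`,
all pairs but the antipodal ones are adjacent. -/
def crossGraph (d : ℕ) : SimpleGraph (Fin d × Bool) where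
  Adj p q := p.1 ≠ q.1
  symm := ⟨fun _ _ h => Ne.symm h⟩
  loopless := ⟨fun _ h => h rfl⟩

/-- The graph of every centrally symmetric simplicial `d`-polytope contains a subdivision of the graph of the
`d`-dimensional cross-polytope, and a subdivision of the complete graph with `[3d/2]` vertices. -/
theorem result (d : ℕ) (V : Finset (EuclideanSpace ℝ (Fin d))) (hV : IsCSSimplicial V) :
    HasSubdivision (polytopeGraph V) (V : Set (EuclideanSpace ℝ (Fin d))) (crossGraph d) ∧
    HasSubdivision (polytopeGraph V) (V : Set (EuclideanSpace ℝ (Fin d)))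
      (⊤ : SimpleGraph (Fin (3 * d / 2))) :=
  Pool.Agent.Work.MP_5f857a_co.X.own d V hV.1 hV.2.1 hV.2.2.1 hV.2.2.2

end Pool.Agent.Results.MP_5f857a_co.CrossPolytopeSubdivision
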